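import Pool.Agent.U471.RP.Prod2
import Pool.Agent.TH935.TG4

/-!
# Prime tuples at the elements of arbitrary sets, for all the shifts near almost all values of arbitrary real polynomials

Let `f_i` (`i = 1, …, k`) be real polynomials of degree at most `d_i` whose coefficient of `t ^ (d_i)` lies between
`(log N) ^ (-C)` and `(log N) ^ C`, with `|f_i(u)| ≤ N` for `u = 1, …, X_i`, where `X_i ^ (d_i) ≥ N / (log N) ^ C`; the
other coefficients are arbitrary. Let `𝒩_l` be at most `(log N) ^ T` ARBITRARY sets of positive integers (for example sets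
of primes). For all but a proportion `(log N) ^ (-U)` of the vectors `(u_1, …, u_k)`, `u_i ≤ X_i`, ALL the integer vectors
`a` with `|a_i - f_i(u_i)| ≤ (log N) ^ W` have the property that in every window the number of the `n ∈ 𝒩_l` for which all
the `n + a_i` are prime is the number predicted from the number `R` of the `n ∈ 𝒩_l` for which the `n + a_i` have no prime
factors up to a power of `log N`, as soon as `R ≥ N / (log N) ^ K`. For `𝒩_l` the set of the primes this is the problem of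
the prime tuples `n, n + a_1, …, n + a_k`. The theorem is uniform in the `f_i` and the `𝒩_l`.

Proof: an inverse theorem for Weyl sums (`Pool.Agent.H373R2.NB.IW_all`) shows that the integers near the values have, up to
powers of `log N`, the least possible additive energy of some order; then the theorem of the starting files on the elements
of arbitrary sets (`Pool.Agent.TH935.TG`) applies. The worst sets may depend on the polynomials and conversely.
-/

set_option autoImplicit false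

namespace Pool.Agent.Results.MP_8923e7_nt.RealPolynomials

open Finset Polynomial

open Classical in
/-- The number of `n ∈ M` with `y₁ < n ≤ y₂` such that `|n + a i|` is prime for every `i`. -/
noncomputable def primeCount {k : ℕ} (a : Fin k → ℤ) (M : Set ℕ) (y₁ y₂ : ℕ) : ℕ :=
  ((Ioc y₁ y₂).filter (fun n : ℕ => n ∈ M ∧ ∀ i, ((n : ℤ) + a i).natAbs.Prime)).card

open Classical in
/-- The number of `n ∈ M` with `y₁ < n ≤ y₂` such that no `n + a i` is divisible by a prime `p ≤ z`. -/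
noncomputable def roughCount {k : ℕ} (a : Fin k → ℤ) (z : ℕ) (M : Set ℕ) (y₁ y₂ : ℕ) : ℕ :=
  ((Ioc y₁ y₂).filter (fun n : ℕ => n ∈ M ∧ ∀ i, ∀ p : ℕ, p.Prime → p ≤ z → ¬ (p : ℤ) ∣ (n : ℤ) + a i)).card

/-- `∏_{p ≤ z} (1 - 1 / p)`, the density of the integers without prime factors `≤ z`. -/
noncomputable def V (z : ℕ) : ℝ := ∏ p ∈ (Icc 1 z).filter Nat.Prime, (1 - 1 / (p : ℝ))

/-- For every one of the sets `𝒩 l` and every window `y₁ < n ≤ y₂` with `y₂ ≤ B N` which contains at least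
`N / (log N) ^ K` elements `n` of `𝒩 l` such that the numbers `n + a i` have no prime factor `≤ z`, the
proportion of these elements for which all `|n + a i|` are prime is `1 / (V z log N) ^ k`, up to a relative
error of at most `ε`. -/
def Holds (ε : ℝ) (K B N z : ℕ) {k m : ℕ} (𝒩 : Fin m → Set ℕ) (a : Fin k → ℤ) : Prop :=
  ∀ l : Fin m, ∀ y₁ y₂ : ℕ, y₁ ≤ y₂ → y₂ ≤ B * N →
    (N : ℝ) / Real.log N ^ K ≤ roughCount a z (𝒩 l) y₁ y₂ →
    |(primeCount a (𝒩 l) y₁ y₂ : ℝ) - roughCount a z (𝒩 l) y₁ y₂ / (V z * Real.log N) ^ k| ≤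
      ε * (roughCount a z (𝒩 l) y₁ y₂ / (V z * Real.log N) ^ k)

/-- The real polynomials `f` of degree at most `d`, with `(log N) ^ (-C) ≤ f_d ≤ (log N) ^ C` for the coefficient `f_d`
of `t ^ d`, and with `|f(n)| ≤ N` for `n = 1, …, X`, where `X ^ d ≥ N / (log N) ^ C`. -/
structure Normal (d C N X : ℕ) (f : ℝ[X]) : Prop where
  degree : f.natDegree ≤ d
  lower : 1 / Real.log N ^ C ≤ f.coeff d
  upper : f.coeff d ≤ Real.log N ^ C
  length : (N : ℝ) ≤ Real.log N ^ C * (X : ℝ) ^ d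
  values : ∀ n ∈ Icc 1 X, |f.eval (n : ℝ)| ≤ N

open Classical in
/-- The number of the vectors `u`, `1 ≤ u i ≤ X i`, such that `Holds ε K B N z 𝒩 a` fails for some integer vector `a` with
`|a i - f i (u i)| ≤ (log N) ^ W` for all `i`. -/
noncomputable def exceptions {k m : ℕ} (f : Fin k → ℝ[X]) (ε : ℝ) (K B W N z : ℕ) (𝒩 : Fin m → Set ℕ)
    (X : Fin k → ℕ) : ℕ :=
  ((Fintype.piFinset (fun i => Icc 1 (X i))).filter (fun u : Fin k → ℕ => ∃ a : Fin k → ℤ,
    (∀ i, |(a i : ℝ) - (f i).eval (u i : ℝ)| ≤ Real.log N ^ W) ∧ ¬ Holds ε K B N z 𝒩 a)).card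

open Pool.Agent.TH935.TG
open Pool.Agent.H373R2.T7 (pz mem_pz Vz)

open Classical in
lemma prime_eq {k : ℕ} (a : Fin k → ℤ) (M : Set ℕ) (Y y₁ y₂ : ℕ) (hY : y₂ ≤ Y) :
    primeCount a M y₁ y₂ = cnM (fun _ => 1) a (win ((Ioc 0 Y).filter (· ∈ M)) y₁ y₂) := by
  unfold primeCount cnM win
  rw [filter_filter, filter_filter]
  congr 1
  ext n
  rw [mem_filter, mem_filter, mem_Ioc, mem_Ioc]
  simp only [one_mul]
  constructor
  · rintro ⟨⟨h1, h2⟩, h3, h4⟩
    exact ⟨⟨by omega, by omega⟩, h3, ⟨h1, h2⟩, h4⟩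
  · rintro ⟨_, h3, ⟨h1, h2⟩, h4⟩
    exact ⟨⟨h1, h2⟩, h3, h4⟩

open Classical in
lemma rough_eq {k : ℕ} (a : Fin k → ℤ) (z : ℕ) (M : Set ℕ) (Y y₁ y₂ : ℕ) (hY : y₂ ≤ Y) :
    roughCount a z M y₁ y₂ = rgM (fun _ => 1) a z (win ((Ioc 0 Y).filter (· ∈ M)) y₁ y₂) := by
  unfold roughCount rgM win
  rw [filter_filter, filter_filter]
  congr 1
  ext n
  rw [mem_filter, mem_filter, mem_Ioc, mem_Ioc]
  simp only [one_mul]
  constructor
  · rintro ⟨⟨h1, h2⟩, h3, h4⟩
    exact ⟨⟨by omega, by omega⟩, h3, ⟨h1, h2⟩, fun i p hp => h4 i p (mem_pz.1 hp).2 (mem_pz.1 hp).1⟩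
  · rintro ⟨_, h3, ⟨h1, h2⟩, h4⟩
    exact ⟨⟨h1, h2⟩, h3, fun i p hp1 hp2 => h4 i p (mem_pz.2 ⟨hp2, hp1⟩)⟩

lemma V_eq (z : ℕ) : V z = Vz z := rfl

open Classical in
lemma holds_of (ε : ℝ) (K B B' N z : ℕ) (hB : B ≤ B') {k m : ℕ} (𝒩 : Fin m → Set ℕ) (a : Fin k → ℤ)
    (h : HB ε K 0 B' N z (fun l : Fin m => (Ioc 0 (B' * N)).filter (· ∈ 𝒩 l)) a) : Holds ε K B N z 𝒩 a := by
  intro l y₁ y₂ h12 hy2 hR
  have hy2' : y₂ ≤ B' * N := hy2.trans (Nat.mul_le_mul_right _ hB)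
  have h1 := h (fun _ => 1) (fun _ => one_ne_zero) (fun _ => by simp) l y₁ y₂ h12 hy2'
  rw [rough_eq a z (𝒩 l) (B' * N) y₁ y₂ hy2'] at hR ⊢
  rw [prime_eq a (𝒩 l) (B' * N) y₁ y₂ hy2', V_eq]
  exact h1 hR

/-- **Prime tuples at the elements of arbitrary sets, for all the shifts near the values of real polynomials.** Let `k ≥ 1`,
`d i ≥ 1`, `B, C, K, T, U, W` and `ε > 0` be given, let `E` be large in terms of these, and let `N` be large in terms of all
of them. Let `𝒩 l`, `l = 1, …, m`, be arbitrary sets of positive integers, `m ≤ (log N) ^ T`. For all `X i` and ALL real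
polynomials `f i` with `Normal (d i) C N (X i) (f i)`: for all but at most `(∏ X i) / (log N) ^ U` of the vectors `u`,
`1 ≤ u i ≤ X i`, ALL the integer vectors `a` with `|a i - f i (u i)| ≤ (log N) ^ W` for all `i` have the property
`Holds ε K B N z 𝒩 a` with `z = ⌊(log N) ^ E⌋`. -/
theorem result (k : ℕ) (hk : 1 ≤ k) (d : Fin k → ℕ) (hd : ∀ i, 1 ≤ d i) (B C K T U W : ℕ) (ε : ℝ) (hε : 0 < ε) :
    ∃ E₀ : ℕ, ∀ E : ℕ, E₀ ≤ E → ∃ N₀ : ℕ, ∀ N : ℕ, N₀ ≤ N →
      ∀ m : ℕ, (m : ℝ) ≤ Real.log N ^ T → ∀ 𝒩 : Fin m → Set ℕ,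
      ∀ (X : Fin k → ℕ) (f : Fin k → ℝ[X]), (∀ i, Normal (d i) C N (X i) (f i)) →
      (exceptions f ε K B W N ⌊Real.log N ^ E⌋₊ 𝒩 X : ℝ) ≤ (∏ i, (X i : ℝ)) / Real.log N ^ U := by
  classical
  obtain ⟨h, C', U', _, hmain⟩ := Pool.Agent.U471.RP.near_par' (Θ := (m : ℕ) × (Fin m → Set ℕ)) k d hd C W U (B + 2)
    (by omega)
  obtain ⟨E0, h0⟩ := fam_types k h (B + 2) C' 0 T U' K hk ε hε
  refine ⟨E0, fun E hE => ?_⟩
  obtain ⟨n0, h1⟩ := h0 E hE
  obtain ⟨N₀, h2⟩ := hmain (fun N θ => (θ.1 : ℝ) ≤ Real.log N ^ T)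
    (fun N θ a => Holds ε K B N ⌊Real.log N ^ E⌋₊ θ.2 a) ⟨n0, fun N hN θ hθ ι _ v hv hE' 𝒮 hS =>
      h1 N hN (Fin θ.1) (by rw [Fintype.card_fin]; exact hθ)
        (fun l : Fin θ.1 => (Ioc 0 ((B + 2) * N)).filter (· ∈ θ.2 l)) (fun l => filter_subset _ _) ι v hv hE' 𝒮
        (fun q hq hH => hS q hq (holds_of ε K B (B + 2) N _ (by omega) θ.2 _ hH))⟩
  refine ⟨N₀, fun N hN m hm 𝒩 X f hf => ?_⟩
  unfold exceptions
  refine h2 N hN ⟨m, 𝒩⟩ hm X f (fun i => ⟨(hf i).degree, (hf i).lower, (hf i).upper, (hf i).length, (hf i).values⟩) _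
    (filter_subset _ _) ?_
  intro n hn
  rw [mem_filter] at hn
  exact hn.2

end Pool.Agent.Results.MP_8923e7_nt.RealPolynomials
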